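import Pool.Agent.H51Seshadri.Main

/-!
# Demailly's question on the positivity of the global Seshadri constant

Let `k` be an algebraically closed field of characteristic 11 and let `X` be the blow-up of the
projective plane over `k` at the sixteen points `pts` (the triple and fivefold points of the
arrangement of the fifteen mirrors of the icosahedral reflection group, reduced modulo 11).
There is a point `x` of `X` such that for every `N` there are an ample line bundle `L` on `X` and
an irreducible curve `C` on `X` through `x` with `L · C = 1` and multiplicity at least `N` at `x`.
Hence `ε(L, x) ≤ 1 / N`, so the infimum of the Seshadri constants of the ample line bundles on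
`X` is `0`, even at the fixed point `x`.
-/

namespace Pool.Agent.Results.MP_ae1e08_ag.SeshadriZeroChar11

open Pool.Agent.H51Seshadri

theorem result (k : Type*) [Field k] [IsAlgClosed k] [CharP k 11] :
    ∃ P : Fin 3 → k, IsPoint P ∧ ∀ N : ℕ, ∃ L : Bundle, L.Ample k ∧
      ∃ G : MvPolynomial (Fin 3) k, IsCurve G ∧ L.dot G = 1 ∧ N ≤ mult P G :=
  seshadri_zero k

end Pool.Agent.Results.MP_ae1e08_ag.SeshadriZeroChar11
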